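import Mathlib
import Pool.Agent.Helper531.ES.RDefs
import Pool.Agent.Helper531.ES.Final

set_option autoImplicit false

namespace Pool.Agent.Results.MP_06e9af_co.OddTrees

open Helper531.ES

/-- For every odd `n ≥ 3` and every tree `T` on `n` vertices, the (two-colour) Ramsey number of `T`
exists and is at most `2n - 3`. -/
theorem result :
    ∀ n : ℕ, 3 ≤ n → Odd n → ∀ T : SimpleGraph (Fin n), T.IsTree →
      ∃ r : ℕ, IsRamseyNumber T 2 r ∧ r ≤ 2 * n - 3 :=
  burr_erdos esProp

end Pool.Agent.Results.MP_06e9af_co.OddTrees
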